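import Mathlib

/-!
# The Bogomolov-Miyaoka-Yau inequality for symplectic four-manifolds: data and known facts
-/

namespace Pool.Agent.N522.SB

/-- Closed connected symplectic four-manifolds with `b⁺ > 1`. -/
structure Theory where
  /-- the manifolds (with a symplectic form) -/
  Man : Type
  /-- Euler characteristic -/
  e : Man → ℤ
  /-- signature -/
  s : Man → ℤ
  /-- `Cover n Y X`: `Y` is a connected covering of degree `n` of `X` -/
  Cover : ℕ → Man → Man → Prop
  /-- `X` contains a symplectic torus of self-intersection zero -/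
  HasTorus : Man → Prop
  /-- `Sum g X Y Z`: `Z` is a symplectic sum of `X` and `Y` along symplectic surfaces of genus `g` and
  self-intersection zero -/
  Sum : ℕ → Man → Man → Man → Prop
  /-- a minimal model -/
  min : Man → Man
  /-- minimal manifolds -/
  Minimal : Man → Prop
  /-- the Kodaira dimension of a minimal manifold is 1 -/
  KodOne : Man → Prop
  /-- the Kodaira dimension of a minimal manifold is 2 -/
  KodTwo : Man → Prop

variable {T : Theory}

/-- the inequality `c₁² ≤ 3 c₂ + C`, that is `3 σ ≤ e + C` -/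
def Bmy (C : ℤ) (X : T.Man) : Prop := 2 * T.e X + 3 * T.s X ≤ 3 * T.e X + C

/-- Known facts. -/
structure Facts (T : Theory) : Prop where
  /-- multiplicativity in coverings -/
  cover_e : ∀ n X Y, T.Cover n Y X → T.e Y = n * T.e X
  /-- multiplicativity in coverings -/
  cover_s : ∀ n X Y, T.Cover n Y X → T.s Y = n * T.s X
  /-- Euler characteristic of sums (Gompf, McCarthy-Wolfson) -/
  sum_e : ∀ g X Y Z, T.Sum g X Y Z → T.e Z = T.e X + T.e Y + 4 * ((g : ℤ) - 1)
  /-- Novikov additivity -/
  sum_s : ∀ g X Y Z, T.Sum g X Y Z → T.s Z = T.s X + T.s Y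
  /-- the sum of `X` with any `Y` that contains a symplectic torus of square zero exists and
  contains such a torus (a parallel copy) -/
  torus_sum : ∀ X Y, T.HasTorus X → T.HasTorus Y → ∃ Z, T.Sum 1 X Y Z ∧ T.HasTorus Z
  /-- the minimal model is minimal and is obtained by blowing down `k` exceptional spheres -/
  minimal : ∀ X, T.Minimal (T.min X) ∧ ∃ k : ℕ, T.e X = T.e (T.min X) + k ∧
    T.s X = T.s (T.min X) - k
  /-- The Kodaira dimension of a minimal manifold with `b⁺ > 1` is 0, 1 or 2 (Taubes), and in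
  dimension 0 the manifold has the Betti numbers and signature of a K3 surface or a torus bundle over a
  torus (Bauer, Li), so that the inequality holds. -/
  kodaira : ∀ X, T.Minimal X → Bmy 0 X ∨ T.KodOne X ∨ T.KodTwo X
  /-- `K² = 0` in Kodaira dimension 1 -/
  kod_one : ∀ X, T.Minimal X → T.KodOne X → 2 * T.e X + 3 * T.s X = 0

/-- The inequality is inherited by sums, coverings and their quotients. -/
theorem bmy_sum (F : Facts T) (g : ℕ) (hg : 0 < g) (X Y Z : T.Man) (h : T.Sum g X Y Z)
    (hX : Bmy 0 X) (hY : Bmy 0 Y) : Bmy 0 Z := by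
  have h1 := F.sum_e g X Y Z h
  have h2 := F.sum_s g X Y Z h
  have h3 : (1 : ℤ) ≤ g := by exact_mod_cast hg
  unfold Bmy at *
  linarith

theorem bmy_cover (F : Facts T) (n : ℕ) (hn : 0 < n) (X Y : T.Man) (h : T.Cover n Y X) :
    Bmy 0 X ↔ Bmy 0 Y := by
  have h1 := F.cover_e n X Y h
  have h2 := F.cover_s n X Y h
  have h3 : (0 : ℤ) < n := by exact_mod_cast hn
  unfold Bmy
  rw [h1, h2]
  constructor
  · intro h
    nlinarith
  · intro h
    by_contra h'
    push Not at h'
    nlinarith

/-- Multiples of a manifold with a torus. -/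
theorem exists_multiple (F : Facts T) (X : T.Man) (h : T.HasTorus X) (n : ℕ) :
    ∃ Z, T.HasTorus Z ∧ T.e Z = (n + 1) * T.e X ∧ T.s Z = (n + 1) * T.s X := by
  induction n with
  | zero => exact ⟨X, h, by simp, by simp⟩
  | succ n ih =>
    obtain ⟨Y, h1, h2, h3⟩ := ih
    obtain ⟨Z, h4, h5⟩ := F.torus_sum X Y h h1
    refine ⟨Z, h5, ?_, ?_⟩
    · rw [F.sum_e 1 X Y Z h4, h2]
      push_cast
      ring
    · rw [F.sum_s 1 X Y Z h4, h3]
      push_cast
      ring

/-- An inequality with an error term `C` for all manifolds implies the exact inequality for those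
with multiples. -/
theorem exact_of_approx (F : Facts T) (C : ℤ) (h : ∀ X : T.Man, Bmy C X) (X : T.Man)
    (hX : T.HasTorus X ∨ ∀ N : ℕ, ∃ n, N ≤ n ∧ ∃ Y, T.Cover n Y X) : Bmy 0 X := by
  by_contra hc
  have key : ∃ n : ℕ, C < n ∧ ∃ Z : T.Man, T.e Z = n * T.e X ∧ T.s Z = n * T.s X := by
    rcases hX with hX | hX
    · obtain ⟨Z, _, h2, h3⟩ := exists_multiple F X hX C.toNat
      refine ⟨C.toNat + 1, ?_, Z, by rw [h2]; push_cast; ring, by rw [h3]; push_cast; ring⟩
      have := Int.self_le_toNat C
      push_cast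
      linarith
    · obtain ⟨n, hn, Y, hY⟩ := hX (C.toNat + 1)
      refine ⟨n, ?_, Y, F.cover_e n X Y hY, F.cover_s n X Y hY⟩
      have h1 := Int.self_le_toNat C
      have h2 : ((C.toNat + 1 : ℕ) : ℤ) ≤ n := by exact_mod_cast hn
      push_cast at h2
      linarith
  obtain ⟨n, hn, Z, h1, h2⟩ := key
  have h3 := h Z
  unfold Bmy at h3 hc
  rw [h1, h2] at h3
  push Not at hc
  have h0 : (0 : ℤ) ≤ n := Int.natCast_nonneg n
  nlinarith

/-- Reduction to minimal manifolds of Kodaira dimension 1 and 2. -/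
theorem q1_iff (F : Facts T) : (∀ X : T.Man, Bmy 0 X) ↔
    (∀ X : T.Man, T.Minimal X → T.KodOne X → 0 ≤ T.e X) ∧
      ∀ X : T.Man, T.Minimal X → T.KodTwo X → Bmy 0 X := by
  refine ⟨fun h => ⟨fun X h1 h2 => ?_, fun X _ _ => h X⟩, fun h X => ?_⟩
  · have h3 := F.kod_one X h1 h2
    have h4 := h X
    unfold Bmy at h4
    linarith
  · obtain ⟨h1, k, h2, h3⟩ := F.minimal X
    have key : Bmy 0 (T.min X) := by
      rcases F.kodaira _ h1 with h4 | h4 | h4
      · exact h4
      · have h5 := F.kod_one _ h1 h4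
        have h6 := h.1 _ h1 h4
        unfold Bmy
        linarith
      · exact h.2 _ h1 h4
    unfold Bmy at *
    have hk : (0 : ℤ) ≤ k := Int.natCast_nonneg k
    rw [h2, h3]
    linarith

end Pool.Agent.N522.SB
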